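import Pool.Agent.Lib.MP_651af7_nt.As.Fin
import Pool.Agent.Lib.MP_651af7_nt.Bx.Loc
import Pool.Agent.Lib.MP_651af7_nt.Bx.Trans

/-! The inequality on projective bundles passes along birational maps. -/

namespace Pool.Agent.Lib.MP_651af7_nt.Db

open MvPolynomial Finset Height NumberField Matrix Av As Bx
open Rt (Pl av mu)
open Es (mn)
open Ex (GenPos)

variable {k ι κ : Type} [Field k] [NumberField k] [Fintype ι] [Fintype κ]

/-- The inequality for all projective bundles over the variety of `I`. -/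
def VB (I : Ideal (MvPolynomial ι k)) : Prop :=
  ∀ (n r q b : ℕ) (B : Matrix (Fin n) (Fin r) (MvPolynomial ι k)), (∀ i j, (B i j).IsHomogeneous b) →
    ∀ (L : Fin q → Fin r → MvPolynomial ι k) (e : Fin q → ℕ), (∀ j l, (L j l).IsHomogeneous (e j)) →
    ∀ ε : ℝ, 0 < ε → ∃ (P : MvPolynomial (Fin r) (MvPolynomial ι k)) (s s' : ℕ),
      P.IsHomogeneous s ∧ (∀ μ, (coeff μ P).IsHomogeneous s') ∧ (∃ μ, coeff μ P ∉ I) ∧
      ∀ S : Finset (FinitePlace k), ∃ C : ℝ, ∀ (x : ι → k) (t : Fin r → k)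
        (J : Pl S → Finset (Fin q)), x ≠ 0 → (∀ f ∈ I, eval x f = 0) → eval₂ (eval x) t P ≠ 0 →
        mn (B.map (eval x)) ≠ 0 → (∀ p, GenPos (fun j l => eval x (L j l)) (J p)) →
        (∀ p, ∀ j ∈ J p, ∑ l, eval x (L j l) * t l ≠ 0) →
        ∑ p, mu p * ∑ j ∈ J p,
            lamB (av p) (e j) b x (B.map (eval x) *ᵥ t) (∑ l, eval x (L j l) * t l) +
          logHeight (mn (B.map (eval x))) ≤ r * logHeight (B.map (eval x) *ᵥ t) +
            ε * (logHeight x + logHeight (B.map (eval x) *ᵥ t)) + C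

theorem vb_av (A : AV k ι) : VB A.I := fun _ _ _ _ B hB L e hL _ hε =>
  let ⟨P, ⟨⟨s, h1⟩, ⟨s', h2⟩, h3⟩, h⟩ := vojtaB A B hB L e hL hε
  ⟨P, s, s', h1, h2, h3, h⟩

omit [NumberField k] in
theorem sup_pos (v : AbsoluteValue k ℝ) {x : ι → k} (hx : x ≠ 0) : 0 < ⨆ a, v (x a) :=
  let ⟨a, ha⟩ := Function.ne_iff.1 hx
  (v.pos ha).trans_le (Finite.le_ciSup (fun a => v (x a)) a)

omit [NumberField k] in
theorem lamB_le {n : ℕ} (v : AbsoluteValue k ℝ) (e b d : ℕ) {x : κ → k} {y : ι → k} (hx : x ≠ 0)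
    (hy : y ≠ 0) (Y : Fin n → k) {l c : k} (hl : l ≠ 0) (hc : c ≠ 0) :
    lamB v e b x Y l ≤ lamB v (d * e) (d * b) y (c ^ b • Y) (c ^ e * l) +
      (e + b) * |Real.log ((⨆ a, v (y a)) ^ d / (v c * ⨆ a, v (x a)))| := by
  have h1 : ⨆ i, v ((c ^ b • Y) i) = v c ^ b * ⨆ i, v (Y i) := by
    rw [← map_pow]
    exact iSup_mul_left v (c ^ b) Y
  have h2 := (sup_pos v hx).ne'
  have h3 := (sup_pos v hy).ne'
  have h4 := v.ne_zero hc
  have h5 := v.ne_zero hl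
  rw [lamB, lamB, h1, map_mul, map_pow]
  by_cases hY : ⨆ i, v (Y i) = 0
  · simp only [hY, mul_zero, zero_div, Real.log_zero, zero_add]
    positivity
  have h6 := le_abs_self (Real.log ((⨆ a, v (y a)) ^ d / (v c * ⨆ a, v (x a))))
  have h7 := neg_abs_le (Real.log ((⨆ a, v (y a)) ^ d / (v c * ⨆ a, v (x a))))
  have h8 := mul_le_mul_of_nonneg_left h6 (b.cast_nonneg (α := ℝ))
  have h9 := mul_le_mul_of_nonneg_left h7 (e.cast_nonneg (α := ℝ))
  generalize |Real.log ((⨆ a, v (y a)) ^ d / (v c * ⨆ a, v (x a)))| = R at *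
  simp (disch := positivity) only [Real.log_div, Real.log_mul, Real.log_pow, Nat.cast_mul] at *
  nlinarith

theorem rho_le (A : AV k ι) {ψ : κ → MvPolynomial ι k} {d : ℕ} (hψ : ∀ i, (ψ i).IsHomogeneous d)
    (i : κ) {v : AbsoluteValue k ℝ} (hv : Adm v) {ε : ℝ} (hε : 0 < ε) : ∃ C : ℝ,
    ∀ (y : ι → k) (x : κ → k) (c : k), y ≠ 0 → (∀ P ∈ A.I, eval y P = 0) → eval y (ψ i) ≠ 0 →
      (∀ a, eval y (ψ a) = c * x a) →
      |Real.log ((⨆ a, v (y a)) ^ d / (v c * ⨆ a, v (x a)))| ≤ ε * logHeight y + C := by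
  obtain ⟨C, hC⟩ := A.prox_part (hψ i) hv hε
  obtain ⟨c₀, c0, hc⟩ := sup_eval_le v hψ
  refine ⟨|C| + |Real.log c₀|, fun y x c y0 yz yi e => ?_⟩
  have h1 : v c * ⨆ a, v (x a) = ⨆ a, v (eval y (ψ a)) := by
    simp only [e]
    exact (iSup_mul_left v c x).symm
  have h2 := pow_pos (sup_pos v y0) d
  have h3 := v.pos yi
  have h4 := Finite.le_ciSup (fun a => v (eval y (ψ a))) i
  have h5 := hC y y0 yz yi
  have h6 := Real.log_le_log h3 h4
  have h7 := Real.log_le_log (h3.trans_le h4) (hc y)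
  have h8 := mul_nonneg hε.le (logHeight_nonneg y)
  rw [Real.log_mul c0.ne' h2.ne'] at h7
  rw [Real.log_div h2.ne' h3.ne'] at h5
  rw [h1, Real.log_div h2.ne' (h3.trans_le h4).ne', abs_le]
  constructor <;> linarith [le_abs_self C, abs_nonneg C, le_abs_self (Real.log c₀),
    abs_nonneg (Real.log c₀)]

theorem vb_birat (A : AV k ι) {I : Ideal (MvPolynomial κ k)} (hI : I.IsPrime) (hb : Birat I A.I) :
    VB I := by
  intro n r q b B hB L e hL ε hε
  obtain ⟨φ, ψ, h, h'⟩ := hb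
  obtain ⟨a, ha⟩ := h.hom
  obtain ⟨d, hd⟩ := h'.hom
  obtain ⟨i, hi⟩ := h.ne
  obtain ⟨j, hj⟩ := h'.ne
  have hε' : 0 < ε / (2 * (a + 1)) := by positivity
  obtain ⟨P, s, s', p1, p2, ⟨μ, p3⟩, p4⟩ := vb_av A n r q (d * b) (B.map (aeval ψ))
    (fun i j => (hB i j).aeval ψ hd) (fun j l => aeval ψ (L j l)) (fun j => d * e j)
    (fun j l => (hL j l).aeval ψ hd) _ hε'
  refine ⟨C (aeval φ (ψ i) * φ j) * MvPolynomial.map (aeval φ : _ →ₐ[k] _).toRingHom P, s,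
    a * d + a + a * s', (p1.map _).C_mul _, fun ν => ?_, ⟨μ, ?_⟩, fun S => ?_⟩
  · rw [coeff_C_mul, coeff_map]
    exact (((hd i).aeval φ ha).mul (ha j)).mul ((p2 ν).aeval φ ha)
  · rw [coeff_C_mul, coeff_map]
    exact fun e => (hI.mem_or_mem e).elim (fun e => (hI.mem_or_mem e).elim hi fun e =>
      hj (h'.map _ e)) (h'.pull A.tr_prime (p2 μ) p3)
  obtain ⟨C₁, h1⟩ := p4 S
  obtain ⟨C₂, h2⟩ := logHeight_eval_le' ha
  obtain ⟨W, hW⟩ : ∃ W : ℝ, W = ∑ p : Pl S, (mu p : ℝ) * ∑ j, ((e j : ℝ) + b) := ⟨_, rfl⟩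
  have hW0 : 0 ≤ W := by
    rw [hW]
    positivity
  have hε'' : 0 < ε / (2 * (a + 1)) / (W + 1) := by positivity
  choose C₃ h3 using fun p : Pl S => rho_le A hd i (Rt.adm_av p) hε''
  refine ⟨C₁ + 2 * (ε / (2 * (a + 1))) * |C₂| + W * ∑ p, |C₃ p|,
    fun x t J x0 xz xP xm xg xl => ?_⟩
  obtain ⟨y, hy⟩ : ∃ y : ι → k, y = fun j => eval x (φ j) := ⟨_, rfl⟩
  have ey : ∀ Q, eval x (aeval φ Q) = eval y Q := fun Q => by
    rw [← aeval_eq_eval, trans_aev, hy]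
    rfl
  rw [eval₂_mul, eval₂_C, map_mul, mul_ne_zero_iff, mul_ne_zero_iff, eval₂_map,
    show (eval x).comp (aeval φ : _ →ₐ[k] _).toRingHom = eval y from RingHom.ext ey] at xP
  obtain ⟨c, hc, e1⟩ := h.pt (x := x) x0 xz xP.1.1
  replace e1 : ∀ a, eval y (ψ a) = c * x a := hy ▸ e1
  have y0 : y ≠ 0 := Function.ne_iff.2 ⟨j, hy ▸ xP.1.2⟩
  have yz : ∀ P ∈ A.I, eval y P = 0 := hy ▸ h.zero (x := x) xz
  have ex : ∀ {Q : MvPolynomial κ k} {m : ℕ}, Q.IsHomogeneous m →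
      eval y (aeval ψ Q) = c ^ m * eval x Q := fun hQ => by
    rw [← aeval_eq_eval, trans_aev, ← eval_mul_of_hom hQ, ← funext e1]
    rfl
  have eB : (B.map (aeval ψ)).map (eval y) = c ^ b • B.map (eval x) := by
    ext i j
    exact ex (hB i j)
  have eL : ∀ j, ∑ l, eval y (aeval ψ (L j l)) * t l = c ^ e j * ∑ l, eval x (L j l) * t l :=
    fun j => by simp only [ex (hL j _), mul_sum, mul_assoc]
  have hcb := pow_ne_zero b hc
  have h4 := h1 y t J y0 yz xP.2 (by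
      rw [eB, Es.mn_smul]
      exact smul_ne_zero (pow_ne_zero r hcb) xm)
    (fun p I hIJ hI' => by
      have := (xg p I hIJ hI').units_smul fun j => Units.mk0 _ (pow_ne_zero (e j) hc)
      refine cast (congrArg (fun u : I → Fin r → k => LinearIndependent k u) ?_) this
      funext j l
      exact (ex (hL j l)).symm)
    fun p j hj => by
      rw [eL]
      exact mul_ne_zero (pow_ne_zero _ hc) (xl p j hj)
  simp only [eB, eL, Matrix.smul_mulVec, Es.mn_smul, logHeight_smul_eq_logHeight _ hcb,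
    logHeight_smul_eq_logHeight _ (pow_ne_zero r hcb)] at h4
  obtain ⟨R, hR⟩ : ∃ R : ℝ, R = ε / (2 * (a + 1)) / (W + 1) * logHeight y + ∑ p, |C₃ p| := ⟨_, rfl⟩
  have h0 := logHeight_nonneg y
  have h5 : ∑ p, mu p * ∑ j ∈ J p,
      lamB (av p) (e j) b x (B.map (eval x) *ᵥ t) (∑ l, eval x (L j l) * t l) ≤
      ∑ p, mu p * ∑ j ∈ J p, lamB (av p) (d * e j) (d * b) y (c ^ b • B.map (eval x) *ᵥ t)
        (c ^ e j * ∑ l, eval x (L j l) * t l) + W * R := by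
    rw [hW, sum_mul, ← sum_add_distrib]
    refine sum_le_sum fun p _ => ?_
    rw [mul_assoc, ← mul_add]
    refine mul_le_mul_of_nonneg_left ((sum_le_sum fun j hj =>
      lamB_le (av p) (e j) b d x0 y0 _ (xl p j hj) hc).trans ?_) (Nat.cast_nonneg _)
    rw [sum_add_distrib, ← sum_mul]
    refine add_le_add le_rfl (mul_le_mul (sum_le_sum_of_subset_of_nonneg (subset_univ _)
      fun _ _ _ => by positivity) ((h3 p y x c y0 yz (ey _ ▸ xP.1.1) e1).trans ?_) (abs_nonneg _)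
      (by positivity))
    rw [hR]
    exact add_le_add le_rfl ((le_abs_self _).trans
      (single_le_sum (fun p _ => abs_nonneg (C₃ p)) (mem_univ p)))
  have h6 : W * (ε / (2 * (a + 1)) / (W + 1) * logHeight y) ≤ ε / (2 * (a + 1)) * logHeight y := by
    rw [← mul_assoc]
    refine mul_le_mul_of_nonneg_right ?_ h0
    rw [← mul_div_assoc, div_le_iff₀ (by positivity)]
    nlinarith
  have h7 := mul_le_mul_of_nonneg_left ((hy ▸ h2 x : logHeight y ≤ _).trans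
    (add_le_add_left (le_abs_self C₂) _)) hε'.le
  have h8 : 2 * (ε / (2 * (a + 1)) * (a * logHeight x)) ≤ ε * logHeight x := by
    rw [← mul_assoc, ← mul_assoc]
    refine mul_le_mul_of_nonneg_right ?_ (logHeight_nonneg x)
    rw [mul_div_assoc', div_mul_eq_mul_div, div_le_iff₀ (by positivity)]
    nlinarith
  have h9 : ε / (2 * (a + 1)) * logHeight (B.map (eval x) *ᵥ t) ≤
      ε * logHeight (B.map (eval x) *ᵥ t) := mul_le_mul_of_nonneg_right
    (div_le_self hε.le (by linarith [a.cast_nonneg (α := ℝ)])) (logHeight_nonneg _)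
  rw [hR, mul_add] at h5
  linarith

end Pool.Agent.Lib.MP_651af7_nt.Db
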