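import Pool.Agent.Lib.MP_651af7_nt.Db.Pl
import Pool.Agent.Lib.MP_651af7_nt.Db.Tr
import Pool.Agent.Lib.MP_651af7_nt.Ds.Mor
import Pool.Agent.Lib.MP_651af7_nt.Ds.Tan
import Pool.Agent.Lib.MP_651af7_nt.Cu.VModel

/-! The inequality on projective bundles over a general abelian variety. -/

namespace Pool.Agent.Lib.MP_651af7_nt.Db

open MvPolynomial Finset Height NumberField Matrix Av As Bx Ds Module
open Rt (Pl av mu)
open Es (mn)
open Ex (GenPos)

variable {k K ι : Type} [Field k] [NumberField k] [Field K] [NumberField K] [Algebra k K]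
  [Fintype ι]

theorem sup_pow {β : Type} [Finite β] (f : β → ℝ) (hf : ∀ b, 0 ≤ f b) {n : ℕ} (hn : n ≠ 0) :
    ⨆ b, f b ^ n = (⨆ b, f b) ^ n := by
  cases isEmpty_or_nonempty β
  · simp [hn]
  · exact ht2_sup f hf n

omit [NumberField k] [NumberField K] in
theorem lamB_pow {v : AbsoluteValue k ℝ} {w : AbsoluteValue K ℝ} {m : ℕ}
    (h : ∀ a : k, w (algebraMap k K a) = v a ^ m) {n : ℕ} (e b : ℕ) (x : ι → k) (Y : Fin n → k)
    (l : k) : lamB w e b (fun a => algebraMap k K (x a)) (fun i => algebraMap k K (Y i))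
      (algebraMap k K l) = m * lamB v e b x Y l := by
  have hm : m ≠ 0 := fun e => by simpa [e] using h 0
  simp only [lamB, h]
  rw [sup_pow (fun a => v (x a)) (fun _ => v.nonneg _) hm,
    sup_pow (fun a => v (Y a)) (fun _ => v.nonneg _) hm, ← Real.log_pow]
  congr 1
  ring

theorem vb_down {I : Ideal (MvPolynomial ι k)} {I' : Ideal (MvPolynomial ι K)}
    (h1 : I.map (MvPolynomial.map (algebraMap k K)) ≤ I')
    (h2 : ∀ x : ι → k, (∀ P ∈ I, eval x P = 0) →
      ∀ P ∈ I', eval (fun a => algebraMap k K (x a)) P = 0) (h : VB I') : VB I := by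
  classical
  intro n r q b B hB L e hL ε hε
  obtain ⟨P, s, s', p1, p2, ⟨μ, p3⟩, p4⟩ := h n r q b (B.map (MvPolynomial.map (algebraMap k K)))
    (fun i j => (hB i j).map _) (fun j l => MvPolynomial.map (algebraMap k K) (L j l)) e
    (fun j l => (hL j l).map _) ε hε
  obtain ⟨l, hl⟩ : ∃ l : K →ₗ[k] k, Av.cf l (coeff μ P) ∉ I :=
    not_forall.1 fun h => p3 (h1 (mem_map_of_cf h))
  have hc : ∀ ν, coeff ν (∑ ν ∈ P.support, monomial ν (Av.cf l (coeff ν P))) =
      Av.cf l (coeff ν P) := fun ν => by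
    simp only [coeff_sum, coeff_monomial, sum_ite_eq']
    split_ifs with h
    · rfl
    · rw [notMem_support_iff.1 h, cf_zero]
  refine ⟨∑ ν ∈ P.support, monomial ν (Av.cf l (coeff ν P)), s, s', fun ν hν => p1 fun e => hν ?_,
    fun ν m hm => p2 ν fun e => hm ?_, ⟨μ, (hc μ).symm ▸ hl⟩, fun S => ?_⟩
  · rw [hc, e, cf_zero]
  · rw [hc, coeff_cf, e, map_zero]
  obtain ⟨T, β, m, t1, t2⟩ := exists_below (K := K) S
  obtain ⟨C, hC⟩ := p4 T
  have hn : (0 : ℝ) < finrank k K := Nat.cast_pos.2 finrank_pos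
  have hne : ∀ {α : Type} {y : α → k}, y ≠ 0 → (fun a => algebraMap k K (y a)) ≠ 0 := fun h h' =>
    h (funext fun a => (map_eq_zero _).1 (congrFun h' a))
  refine ⟨C / finrank k K, fun x t J x0 xz xP xm xg xl => ?_⟩
  have ev : ∀ Q, eval (fun a => algebraMap k K (x a)) (MvPolynomial.map (algebraMap k K) Q) =
      algebraMap k K (eval x Q) := fun Q => by
    rw [eval_map, ← eval₂_id, eval₂_comp_left]
    rfl
  have eB : (B.map (MvPolynomial.map (algebraMap k K))).map (eval fun a => algebraMap k K (x a)) =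
      (B.map (eval x)).map (algebraMap k K) := by
    ext i j
    exact ev _
  have em : mn ((B.map (eval x)).map (algebraMap k K)) =
      fun u => algebraMap k K (mn (B.map (eval x)) u) := funext fun u => by
    rw [mn, mn, RingHom.map_det]
    rfl
  have eX : ((B.map (eval x)).map (algebraMap k K) *ᵥ fun i => algebraMap k K (t i)) =
      fun i => algebraMap k K ((B.map (eval x) *ᵥ t) i) := funext fun i =>
    (RingHom.map_mulVec _ _ _ i).symm
  have h3 := hC (fun a => algebraMap k K (x a)) (fun i => algebraMap k K (t i)) (fun p => J (β p))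
    (hne x0) (h2 x xz) (fun e => xP ?_) (by rw [eB, em]; exact hne xm)
    (fun p I hI hI' => by
      simp only [ev]
      exact linearIndependent_algebraMap_comp_iff.2 (xg _ I hI hI'))
    fun p j hj => by
      simp only [ev, ← map_mul, ← map_sum]
      exact (map_ne_zero _).2 (xl _ j hj)
  · simp only [eB, em, eX, ev, ← map_mul, ← map_sum, lamB_pow (t1 _), ← mul_sum,
      MP_651af7_nt.Final.logHeight_algebraMap] at h3
    rw [t2 fun s => ∑ j ∈ J s,
      lamB (av s) (e j) b x (B.map (eval x) *ᵥ t) (∑ l, eval x (L j l) * t l)] at h3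
    refine le_of_mul_le_mul_left ?_ hn
    rw [mul_add _ (_ + _), mul_div_cancel₀ _ hn.ne']
    linarith
  · have e' := congrArg l e
    rw [eval₂_eq, map_sum, map_zero] at e'
    rw [eval₂_sum, ← e']
    refine sum_congr rfl fun ν _ => ?_
    rw [eval₂_monomial, eval_cf, Finsupp.prod]
    simp only [← map_pow, ← map_prod]
    rw [mul_comm _ (algebraMap k K _), ← Algebra.smul_def, map_smul, smul_eq_mul, mul_comm]

theorem vb_abelian {I : Ideal (MvPolynomial ι k)}
    (hI : ∀ P ∈ I, ∀ d, homogeneousComponent d P ∈ I)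
    (hA : Abelian (I.map (MvPolynomial.map (algebraMap k (AlgebraicClosure k))))) : VB I := by
  obtain ⟨A, _, co, a1, a2⟩ := hA
  obtain ⟨m, J', co', Φ, h1, h2, h3, h4⟩ := Cu.model a1 a2
  have : Nonempty A := ⟨0⟩
  obtain ⟨K, hK, B, hB⟩ := descend (k := k) h1 h2 (a1.birat h1 h3 h4)
  have : NumberField K := NumberField.of_module_finite k K
  exact vb_down map_le_up (fun _ => zero_up)
    (vb_birat B (var_up (K := K) ⟨hI, a1.prime⟩).isPrime hB)

end Pool.Agent.Lib.MP_651af7_nt.Db
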