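import Pool.Agent.Lib.MP_651af7_nt.Ds.Ht
import Pool.Agent.Lib.MP_651af7_nt.Rt.Defs

/-! The places above a finite set of places. -/

namespace Pool.Agent.Lib.MP_651af7_nt.Db

open Module NumberField Ds
open Rt (Pl av mu)

variable {k K : Type} [Field k] [NumberField k] [Field K] [NumberField K] [Algebra k K]

theorem sum_comap (f : InfinitePlace k → ℝ) :
    ∑ w : InfinitePlace K, w.mult * f (w.comap (algebraMap k K)) =
      finrank k K * ∑ v : InfinitePlace k, v.mult * f v := by
  have h1 := MP_651af7_nt.Final.prod_emb fun w : InfinitePlace K =>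
    Real.exp (f (w.comap (algebraMap k K)))
  have h2 := MP_651af7_nt.Final.prod_emb fun v : InfinitePlace k => Real.exp (f v)
  have h3 := MP_651af7_nt.Final.prod_emb_comp (L := K) fun σ : k →+* ℂ =>
    Real.exp (f (InfinitePlace.mk σ))
  simp only [InfinitePlace.comap_mk] at h1
  rw [h3, h2] at h1
  simp only [← Real.exp_nat_mul, ← Real.exp_sum] at h1
  exact (Real.exp_injective h1).symm

theorem exists_below (S : Finset (FinitePlace k)) : ∃ (T : Finset (FinitePlace K))
    (β : Pl T → Pl S) (n : Pl T → ℕ), (∀ p a, av p (algebraMap k K a) = av (β p) a ^ n p) ∧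
      ∀ f : Pl S → ℝ, ∑ p, mu p * (n p * f (β p)) = finrank k K * ∑ s, mu s * f s := by
  classical
  choose T n h1 h2 h3 using fun v : FinitePlace k => exists_above (K := K) v
  have hu : ∀ v v' w, w ∈ T v → w ∈ T v' → v = v' := fun v v' w hw hw' =>
    FinitePlace.maximalIdeal_injective
      (IsDedekindDomain.HeightOneSpectrum.ext ((h3 v w hw).symm.trans (h3 v' w hw')))
  have hb : ∀ w : S.biUnion T, ∃ v : S, w.1 ∈ T v := fun w => by
    obtain ⟨v, hv, h⟩ := Finset.mem_biUnion.1 w.2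
    exact ⟨⟨v, hv⟩, h⟩
  choose b hb using hb
  refine ⟨S.biUnion T, Sum.map (fun w => w.comap (algebraMap k K)) b,
    Sum.elim (fun _ => 1) fun w => n (b w) w, ?_, fun f => ?_⟩
  · rintro (w | w) a
    · exact (pow_one _).symm
    · exact h2 _ _ (hb w) a
  simp only [Fintype.sum_sum_type, mu, Sum.elim_inl, Sum.elim_inr, Sum.map_inl, Sum.map_inr,
    Nat.cast_one, one_mul, mul_add]
  rw [sum_comap fun v => f (.inl v), Finset.mul_sum (s := (Finset.univ : Finset S)),
    ← Finset.sum_fiberwise Finset.univ b]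
  refine congrArg _ (Finset.sum_congr rfl fun v _ => ?_)
  rw [← h1 v, Nat.cast_sum, Finset.sum_mul]
  refine Finset.sum_bij (fun w _ => w.1) (fun w hw => (Finset.mem_filter.1 hw).2 ▸ hb w)
    (fun _ _ _ _ => Subtype.ext) (fun w hw => ?_) fun w hw => by rw [(Finset.mem_filter.1 hw).2]
  have h4 := Finset.mem_biUnion.2 ⟨v.1, v.2, hw⟩
  exact ⟨⟨w, h4⟩, Finset.mem_filter.2 ⟨Finset.mem_univ _,
    Subtype.ext (hu _ _ w (hb ⟨w, h4⟩) hw)⟩, rfl⟩

end Pool.Agent.Lib.MP_651af7_nt.Db
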